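import Pool.Agent.Work.MP_c9932b_sb.Interface

/-! Block ULT: ultraproducts of models of `IΔ₀`, Łoś for bounded formulas. -/

set_option autoImplicit false

namespace Pool.SBM.helper4

open Pool.SBM Filter

/-- the ultrafilter -/
noncomputable abbrev UF : Ultrafilter ℕ := hyperfilter ℕ

section
variable (A : ℕ → Type) [∀ n, CommRing (A n)]

/-- the ideal of sequences which are eventually zero -/
def ulI : Ideal (∀ n, A n) where
  carrier := {f | ∀ᶠ n in (UF : Filter ℕ), f n = 0}
  add_mem' := by
    intro f g hf hg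
    filter_upwards [hf, hg] with n h1 h2
    simp [h1, h2]
  zero_mem' := Eventually.of_forall fun _ => rfl
  smul_mem' := by
    intro c f hf
    filter_upwards [hf] with n h1
    simp [h1]

/-- the ultraproduct -/
abbrev UP : Type := (∀ n, A n) ⧸ ulI A

/-- class of a sequence -/
def mk : (∀ n, A n) →+* UP A := Ideal.Quotient.mk (ulI A)

lemma mk_surj : Function.Surjective (mk A) := Ideal.Quotient.mk_surjective

variable {A}

lemma mk_eq {f g : ∀ n, A n} : mk A f = mk A g ↔ ∀ᶠ n in (UF : Filter ℕ), f n = g n := by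
  unfold mk
  rw [Ideal.Quotient.eq]
  show (∀ᶠ n in (UF : Filter ℕ), (f - g) n = 0) ↔ _
  constructor
  · intro h
    filter_upwards [h] with n hn
    simpa [sub_eq_zero] using hn
  · intro h
    filter_upwards [h] with n hn
    simp [hn]

/-- a representative -/
noncomputable def rp (a : UP A) : ∀ n, A n := Function.surjInv (mk_surj A) a

lemma mk_rp (a : UP A) : mk A (rp a) = a := Function.surjInv_eq (mk_surj A) a

variable [∀ n, LinearOrder (A n)]

noncomputable instance : LE (UP A) := ⟨fun a b => ∀ᶠ n in (UF : Filter ℕ), rp a n ≤ rp b n⟩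

lemma mk_le {f g : ∀ n, A n} : mk A f ≤ mk A g ↔ ∀ᶠ n in (UF : Filter ℕ), f n ≤ g n := by
  have h1 := mk_eq.mp (mk_rp (mk A f))
  have h2 := mk_eq.mp (mk_rp (mk A g))
  show (∀ᶠ n in (UF : Filter ℕ), rp (mk A f) n ≤ rp (mk A g) n) ↔ _
  constructor
  · intro h
    filter_upwards [h, h1, h2] with n h3 h4 h5
    rwa [h4, h5] at h3
  · intro h
    filter_upwards [h, h1, h2] with n h3 h4 h5
    rwa [h4, h5]

noncomputable instance : LinearOrder (UP A) where
  le_refl := by
    intro a
    exact Eventually.of_forall fun n => le_refl _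
  le_trans := by
    intro a b c (h1 : ∀ᶠ n in (UF : Filter ℕ), rp a n ≤ rp b n)
      (h2 : ∀ᶠ n in (UF : Filter ℕ), rp b n ≤ rp c n)
    show ∀ᶠ n in (UF : Filter ℕ), rp a n ≤ rp c n
    filter_upwards [h1, h2] with n h3 h4
    exact h3.trans h4
  le_antisymm := by
    intro a b (h1 : ∀ᶠ n in (UF : Filter ℕ), rp a n ≤ rp b n)
      (h2 : ∀ᶠ n in (UF : Filter ℕ), rp b n ≤ rp a n)
    rw [← mk_rp a, ← mk_rp b, mk_eq]
    filter_upwards [h1, h2] with n h3 h4
    exact le_antisymm h3 h4
  le_total := by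
    intro a b
    have h : ∀ᶠ n in (UF : Filter ℕ), rp a n ≤ rp b n ∨ rp b n ≤ rp a n :=
      Eventually.of_forall fun n => le_total _ _
    exact Ultrafilter.eventually_or.mp h
  toDecidableLE := Classical.decRel _

lemma mk_lt {f g : ∀ n, A n} : mk A f < mk A g ↔ ∀ᶠ n in (UF : Filter ℕ), f n < g n := by
  rw [← not_le, mk_le, ← Ultrafilter.eventually_not]
  exact eventually_congr (Eventually.of_forall fun n => not_le)

variable [∀ n, IsStrictOrderedRing (A n)]

instance : IsOrderedAddMonoid (UP A) where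
  add_le_add_left := by
    intro a b hab c
    obtain ⟨f, rfl⟩ := mk_surj A a
    obtain ⟨g, rfl⟩ := mk_surj A b
    obtain ⟨k, rfl⟩ := mk_surj A c
    rw [← map_add, ← map_add, mk_le]
    filter_upwards [mk_le.mp hab] with n hn
    simp only [Pi.add_apply]
    linarith

instance : ZeroLEOneClass (UP A) where
  zero_le_one := by
    rw [← map_zero (mk A), ← map_one (mk A), mk_le]
    exact Eventually.of_forall fun n => zero_le_one

instance : Nontrivial (UP A) where
  exists_pair_ne := by
    refine ⟨0, 1, ?_⟩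
    rw [← map_zero (mk A), ← map_one (mk A)]
    intro h
    obtain ⟨n, hn⟩ := (mk_eq.mp h).exists
    exact zero_ne_one hn

instance : IsStrictOrderedRing (UP A) := IsStrictOrderedRing.of_mul_pos (by
  intro a b ha hb
  obtain ⟨f, rfl⟩ := mk_surj A a
  obtain ⟨g, rfl⟩ := mk_surj A b
  rw [← map_zero (mk A), mk_lt] at ha hb
  rw [← map_mul, ← map_zero (mk A), mk_lt]
  filter_upwards [ha, hb] with n h1 h2
  exact mul_pos h1 h2)

omit [∀ n, LinearOrder (A n)] [∀ n, IsStrictOrderedRing (A n)] in
lemma tm_mk (t : Tm) (v : ℕ → ∀ n, A n) :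
    t.eval (fun i => mk A (v i)) = mk A (fun n => t.eval (fun i => v i n)) := by
  induction t with
  | var i => rfl
  | zero =>
    show (0 : UP A) = mk A (fun n => 0)
    exact (map_zero (mk A)).symm
  | one =>
    show (1 : UP A) = mk A (fun n => 1)
    exact (map_one (mk A)).symm
  | add s t hs ht =>
    rw [Tm.eval_add, hs, ht, ← map_add]
    rfl
  | mul s t hs ht =>
    rw [Tm.eval_mul, hs, ht, ← map_mul]
    rfl

omit [∀ n, IsStrictOrderedRing (A n)] in
lemma opn_mk (φ : Opn) (v : ℕ → ∀ n, A n) :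
    φ.eval (fun i => mk A (v i)) ↔ ∀ᶠ n in (UF : Filter ℕ), φ.eval (fun i => v i n) := by
  induction φ with
  | eq s t => rw [Opn.eval_eq, tm_mk, tm_mk, mk_eq]; rfl
  | le s t => rw [Opn.eval_le, tm_mk, tm_mk, mk_le]; rfl
  | neg φ ih =>
    rw [Opn.eval_neg, ih, ← Ultrafilter.eventually_not]
    rfl
  | and φ ψ h1 h2 =>
    rw [Opn.eval_and, h1, h2, ← eventually_and]
    rfl

omit [∀ n, LinearOrder (A n)] [∀ n, IsStrictOrderedRing (A n)] in
lemma push_mk (a : ∀ n, A n) (v : ℕ → ∀ n, A n) :
    push (mk A a) (fun i => mk A (v i)) = fun i => mk A (push a v i) := by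
  funext i
  cases i <;> rfl

omit [∀ n, CommRing (A n)] [∀ n, LinearOrder (A n)] [∀ n, IsStrictOrderedRing (A n)] in
lemma push_at (a : ∀ n, A n) (v : ℕ → ∀ n, A n) (n : ℕ) :
    (fun i => push a v i n) = push (a n) (fun i => v i n) := by
  funext i
  cases i <;> rfl

omit [∀ n, IsStrictOrderedRing (A n)] in
/-- Łoś -/
lemma los (φ : D0) : ∀ (v : ℕ → ∀ n, A n),
    φ.eval (fun i => mk A (v i)) ↔ ∀ᶠ n in (UF : Filter ℕ), φ.eval (fun i => v i n) := by
  induction φ with
  | opn φ => intro v; exact opn_mk φ v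
  | neg φ ih =>
    intro v
    rw [D0.eval_neg, ih, ← Ultrafilter.eventually_not]
    rfl
  | and φ ψ h1 h2 =>
    intro v
    rw [D0.eval_and, h1, h2, ← eventually_and]
    rfl
  | ball s φ ih =>
    intro v
    rw [D0.eval_ball]
    constructor
    · intro h
      by_contra hcon
      rw [← Ultrafilter.eventually_not] at hcon
      have hex : ∀ n, ∃ a : A n, (¬ (D0.ball s φ).eval (fun i => v i n)) →
          0 ≤ a ∧ a ≤ s.eval (fun i => v i n) ∧ ¬ φ.eval (push a (fun i => v i n)) := by
        intro n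
        by_cases hn : (D0.ball s φ).eval (fun i => v i n)
        · exact ⟨0, fun h => absurd hn h⟩
        · rw [D0.eval_ball] at hn
          push Not at hn
          obtain ⟨a, h1, h2, h3⟩ := hn
          exact ⟨a, fun _ => ⟨h1, h2, h3⟩⟩
      choose a ha using hex
      have h1 := h (mk A a) (by
        rw [← map_zero (mk A), mk_le]
        filter_upwards [hcon] with n hn
        exact (ha n hn).1) (by
        rw [tm_mk, mk_le]
        filter_upwards [hcon] with n hn
        exact (ha n hn).2.1)
      rw [push_mk, ih] at h1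
      obtain ⟨n, hn1, hn2⟩ := (h1.and hcon).exists
      rw [push_at] at hn1
      exact (ha n hn2).2.2 hn1
    · intro h a ha0 has
      obtain ⟨f, rfl⟩ := mk_surj A a
      rw [← map_zero (mk A), mk_le] at ha0
      rw [tm_mk, mk_le] at has
      rw [push_mk, ih]
      filter_upwards [h, ha0, has] with n h1 h2 h3
      rw [push_at]
      exact h1 (f n) h2 h3

end

theorem stmt_ULT (hLNP : Stmt_LNP) : Stmt_ULT := by
  intro A _ _ _ hA
  refine ⟨UP A, inferInstance, inferInstance, inferInstance, mk A, mk_surj A, ⟨?_, ?_⟩, los⟩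
  · intro x hx
    obtain ⟨f, rfl⟩ := mk_surj A x
    rw [← map_zero (mk A), mk_lt] at hx
    rw [← map_one (mk A), mk_le]
    filter_upwards [hx] with n hn
    exact (hA n).disc _ hn
  · intro φ v hv h0 hstep a ha
    by_contra hcon
    -- nonnegative representatives
    have hrep : ∀ x : UP A, 0 ≤ x → ∃ w : ∀ n, A n, mk A w = x ∧ ∀ n, 0 ≤ w n := by
      intro x hx
      obtain ⟨f, rfl⟩ := mk_surj A x
      rw [← map_zero (mk A), mk_le] at hx
      refine ⟨fun n => max (f n) 0, ?_, fun n => le_max_right _ _⟩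
      rw [mk_eq]
      filter_upwards [hx] with n hn
      exact max_eq_left hn
    choose w hw hw0 using fun i => hrep (v i) (hv i)
    have hvw : v = fun i => mk A (w i) := funext fun i => (hw i).symm
    obtain ⟨α, hα, hα0⟩ := hrep a ha
    subst hα
    have hlos : ∀ f : ∀ n, A n, φ.eval (push (mk A f) v) ↔
        ∀ᶠ n in (UF : Filter ℕ), φ.eval (push (f n) (fun i => w i n)) := by
      intro f
      rw [hvw, push_mk, los]
      refine eventually_congr (Eventually.of_forall fun n => ?_)
      rw [push_at]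
    rw [hlos, ← Ultrafilter.eventually_not] at hcon
    have hex : ∀ n, ∃ b : A n, 0 ≤ b ∧ (¬ φ.eval (push (α n) (fun i => w i n)) →
        ¬ φ.eval (push b (fun i => w i n)) ∧
        ∀ b' : A n, 0 ≤ b' → b' < b → φ.eval (push b' (fun i => w i n))) := by
      intro n
      by_cases hn : φ.eval (push (α n) (fun i => w i n))
      · exact ⟨0, le_refl _, fun h => absurd hn h⟩
      · obtain ⟨b, h1, h2, h3⟩ := hLNP (A n) (hA n) (D0.neg φ) (fun i => w i n)
          (fun i => hw0 i n) ⟨α n, hα0 n, hn⟩
        refine ⟨b, h1, fun _ => ⟨h2, fun b' hb' hlt => ?_⟩⟩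
        by_contra hc
        exact h3 b' hb' hlt hc
    choose β hβ0 hβ using hex
    have h0' : ∀ᶠ n in (UF : Filter ℕ), φ.eval (push (0 : A n) (fun i => w i n)) := by
      have := (hlos 0).mp (by rw [map_zero]; exact h0)
      exact this
    have hb1 : ∀ᶠ n in (UF : Filter ℕ), 1 ≤ β n := by
      filter_upwards [h0', hcon] with n h1 h2
      rcases eq_or_lt_of_le (hβ0 n) with h3 | h3
      · exfalso
        apply (hβ n h2).1
        rw [← h3]
        exact h1
      · exact (hA n).disc _ h3
    have h1 : φ.eval (push (mk A (β - 1)) v) := by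
      rw [hlos]
      filter_upwards [hb1, hcon] with n h1 h2
      refine (hβ n h2).2 _ ?_ ?_
      · simp only [Pi.sub_apply, Pi.one_apply]
        linarith
      · simp only [Pi.sub_apply, Pi.one_apply]
        linarith
    have h2 := hstep (mk A (β - 1)) (by
      rw [← map_zero (mk A), mk_le]
      filter_upwards [hb1] with n h1
      simp only [Pi.sub_apply, Pi.one_apply, Pi.zero_apply]
      linarith) h1
    have h3 : mk A (β - 1) + 1 = mk A β := by
      rw [map_sub, map_one]
      ring
    rw [h3, hlos] at h2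
    obtain ⟨n, hn1, hn2⟩ := (h2.and hcon).exists
    exact (hβ n hn2).1 hn1

end Pool.SBM.helper4
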