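import Pool.Agent.Work.MP_c9932b_sb.Interface

/-! Block CUT: the cut generated by the powers of `c` is a model of `IΔ₀ + BΣ₁`. -/

set_option autoImplicit false

namespace Pool.SBM.helper4

open Pool.SBM

section
variable {R : Type} [CommRing R] [LinearOrder R] [IsStrictOrderedRing R]

/-- the cut -/
def cutS (c : R) (hc : 2 ≤ c) : Subring R where
  carrier := {x | ∃ n : ℕ, |x| ≤ c ^ n}
  mul_mem' := by
    rintro a b ⟨n, hn⟩ ⟨m, hm⟩
    refine ⟨n + m, ?_⟩
    rw [abs_mul, pow_add]
    exact mul_le_mul hn hm (abs_nonneg _) ((abs_nonneg _).trans hn)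
  one_mem' := ⟨0, by simp⟩
  add_mem' := by
    rintro a b ⟨n, hn⟩ ⟨m, hm⟩
    have hc1 : (1 : R) ≤ c := le_trans (by norm_num) hc
    refine ⟨max n m + 1, ?_⟩
    have h1 : c ^ n ≤ c ^ max n m := pow_le_pow_right₀ hc1 (le_max_left _ _)
    have h2 : c ^ m ≤ c ^ max n m := pow_le_pow_right₀ hc1 (le_max_right _ _)
    have h3 : (0 : R) ≤ c ^ max n m := pow_nonneg (le_trans zero_le_one hc1) _
    calc |a + b| ≤ |a| + |b| := abs_add_le a b
      _ ≤ c ^ max n m + c ^ max n m := add_le_add (hn.trans h1) (hm.trans h2)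
      _ = 2 * c ^ max n m := by ring
      _ ≤ c * c ^ max n m := mul_le_mul_of_nonneg_right hc h3
      _ = c ^ (max n m + 1) := by ring
  zero_mem' := ⟨0, by simp⟩
  neg_mem' := by
    rintro a ⟨n, hn⟩
    exact ⟨n, by rwa [abs_neg]⟩

lemma mem_cutS {c : R} {hc : 2 ≤ c} {x : R} : x ∈ cutS c hc ↔ ∃ n : ℕ, |x| ≤ c ^ n := Iff.rfl

lemma cutS_convex {c : R} {hc : 2 ≤ c} {x y : R} (hy : y ∈ cutS c hc) (h0 : 0 ≤ x) (hxy : x ≤ y) :
    x ∈ cutS c hc := by
  obtain ⟨n, hn⟩ := hy
  refine ⟨n, ?_⟩
  rw [abs_of_nonneg h0]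
  exact hxy.trans ((le_abs_self y).trans hn)

lemma tm_eval_cut {c : R} {hc : 2 ≤ c} (t : Tm) (v : ℕ → cutS c hc) :
    ((t.eval v : cutS c hc) : R) = t.eval (fun i => (v i : R)) := by
  induction t with
  | var i => rfl
  | zero => simp
  | one => simp
  | add s t hs ht => simp [hs, ht]
  | mul s t hs ht => simp [hs, ht]

lemma opn_eval_cut {c : R} {hc : 2 ≤ c} (φ : Opn) (v : ℕ → cutS c hc) :
    φ.eval v ↔ φ.eval (fun i => (v i : R)) := by
  induction φ with
  | eq s t =>
    simp only [Opn.eval_eq]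
    rw [← tm_eval_cut, ← tm_eval_cut]
    exact Subtype.ext_iff
  | le s t =>
    simp only [Opn.eval_le]
    rw [← tm_eval_cut, ← tm_eval_cut]
    exact Subtype.coe_le_coe.symm
  | neg φ ih => simp only [Opn.eval_neg, ih]
  | and φ ψ h1 h2 => simp only [Opn.eval_and, h1, h2]

lemma push_coe {c : R} {hc : 2 ≤ c} (a : cutS c hc) (v : ℕ → cutS c hc) :
    (fun i => ((push a v i : cutS c hc) : R)) = push (a : R) (fun i => (v i : R)) := by
  funext i
  cases i <;> rfl

lemma eval_cut {c : R} {hc : 2 ≤ c} (φ : D0) : ∀ (v : ℕ → cutS c hc),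
    φ.eval v ↔ φ.eval (fun i => (v i : R)) := by
  induction φ with
  | opn φ => intro v; exact opn_eval_cut φ v
  | neg φ ih => intro v; simp only [D0.eval_neg, ih]
  | and φ ψ h1 h2 => intro v; simp only [D0.eval_and, h1, h2]
  | ball s φ ih =>
    intro v
    simp only [D0.eval_ball]
    constructor
    · intro h a ha0 has
      rw [← tm_eval_cut] at has
      have hmem : a ∈ cutS c hc := cutS_convex (s.eval v).2 ha0 has
      have h1 := h ⟨a, hmem⟩ (Subtype.coe_le_coe.mp (by simpa using ha0))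
        (Subtype.coe_le_coe.mp has)
      rw [ih, push_coe] at h1
      exact h1
    · intro h a ha0 has
      rw [ih, push_coe]
      refine h a (by simpa using (Subtype.coe_le_coe.mpr ha0)) ?_
      rw [← tm_eval_cut]
      exact Subtype.coe_le_coe.mpr has

end

/-- substitution used in the collection formula -/
def colS : ℕ → Tm
  | 0 => .var 0
  | 1 => .var 1
  | i + 2 => .var (i + 4)

/-- `∀ x ≤ t, x < t → ∃ y ≤ z, φ(y,x,v)` at `push z (push t v)` -/
def colF (φ : D0) : D0 :=
  .ball (.var 1) (.imp (.lt (.var 0) (.var 2)) (.bex (.var 1) (φ.subst colS)))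

lemma colF_eval {R : Type} [CommRing R] [LinearOrder R] (φ : D0) (v : ℕ → R) (z t : R) :
    (colF φ).eval (push z (push t v)) ↔ ∀ x : R, 0 ≤ x → x ≤ t → x < t →
      ∃ y : R, 0 ≤ y ∧ y ≤ z ∧ φ.eval (push y (push x v)) := by
  have key : ∀ x y : R, (fun i => (colS i).eval (push y (push x (push z (push t v))))) =
      push y (push x v) := by
    intro x y
    funext i
    match i with
    | 0 => rfl
    | 1 => rfl
    | i + 2 => rfl
  simp only [colF, D0.eval_ball, D0.eval_imp, D0.eval_lt, D0.eval_bex, D0.eval_subst, key]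
  rfl

theorem stmt_CUT (hLNP : Stmt_LNP) : Stmt_CUT := by
  intro R _ _ _ hR c ω hc hω
  have hc1 : (1 : R) ≤ c := le_trans (by norm_num) hc
  have hcn : ∀ n : ℕ, (0 : R) ≤ c ^ n := fun n => pow_nonneg (le_trans zero_le_one hc1) _
  refine ⟨cutS c hc, inferInstance, inferInstance, inferInstance, (cutS c hc).subtype, ?_, ?_, ?_,
    ?_, ?_⟩
  · intro a b hab
    exact hab
  · intro x
    constructor
    · intro h
      exact ⟨⟨x, h⟩, rfl⟩
    · rintro ⟨a, rfl⟩
      exact a.2
  · refine ⟨?_, ?_⟩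
    · intro x hx
      have h1 : (0 : R) < (x : R) := by
        have := Subtype.coe_lt_coe.mpr hx
        simpa using this
      have h2 := hR.disc _ h1
      exact Subtype.coe_le_coe.mp (by simpa using h2)
    · intro φ v hv h0 hstep a ha
      by_contra hcon
      have hv' : ∀ i, 0 ≤ ((v i : cutS c hc) : R) := by
        intro i
        have := Subtype.coe_le_coe.mpr (hv i)
        simpa using this
      have ha' : (0 : R) ≤ (a : R) := by
        have := Subtype.coe_le_coe.mpr ha
        simpa using this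
      have hcon' : (D0.neg φ).eval (push (a : R) (fun i => ((v i : cutS c hc) : R))) := by
        rw [D0.eval_neg, ← push_coe, ← eval_cut]
        exact hcon
      obtain ⟨b, hb0, hb, hmin⟩ := hLNP R hR (D0.neg φ) _ hv' ⟨a, ha', hcon'⟩
      have hba : b ≤ a := by
        by_contra hlt
        exact hmin a ha' (lt_of_not_ge hlt) hcon'
      have hbm : b ∈ cutS c hc := cutS_convex a.2 hb0 hba
      rcases eq_or_lt_of_le hb0 with hb0' | hb0'
      · subst hb0'
        apply hb
        rw [eval_cut, push_coe] at h0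
        simpa using h0
      · have hb1 : 1 ≤ b := hR.disc _ hb0'
        have hb1m : b - 1 ∈ cutS c hc := cutS_convex hbm (by linarith) (by linarith)
        have h1 := hmin (b - 1) (by linarith) (by linarith)
        rw [D0.eval_neg, not_not] at h1
        have h2 := hstep ⟨b - 1, hb1m⟩ (Subtype.coe_le_coe.mp (by simpa using hb1)) (by
          rw [eval_cut, push_coe]
          exact h1)
        rw [eval_cut, push_coe] at h2
        apply hb
        have h3 : (((⟨b - 1, hb1m⟩ : cutS c hc) + 1 : cutS c hc) : R) = b := by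
          simp
        rw [h3] at h2
        exact h2
  · intro φ v t hv ht hcol
    have hv' : ∀ i, 0 ≤ ((v i : cutS c hc) : R) := by
      intro i
      have := Subtype.coe_le_coe.mpr (hv i)
      simpa using this
    have ht' : (0 : R) ≤ (t : R) := by
      have := Subtype.coe_le_coe.mpr ht
      simpa using this
    -- witnesses in the cut
    have hw : ∀ x : R, 0 ≤ x → x < t → ∃ (y : R) (n : ℕ), 0 ≤ y ∧ y ≤ c ^ n ∧
        φ.eval (push y (push x (fun i => ((v i : cutS c hc) : R)))) := by
      intro x hx0 hxt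
      have hxm : x ∈ cutS c hc := cutS_convex t.2 hx0 hxt.le
      obtain ⟨y, hy0, hy⟩ := hcol ⟨x, hxm⟩ (Subtype.coe_le_coe.mp (by simpa using hx0))
        (Subtype.coe_lt_coe.mp hxt)
      obtain ⟨n, hn⟩ := y.2
      refine ⟨y, n, ?_, (le_abs_self _).trans hn, ?_⟩
      · have := Subtype.coe_le_coe.mpr hy0
        simpa using this
      · rw [eval_cut, push_coe, push_coe] at hy
        exact hy
    have hω' : (colF φ).eval (push ω (push (t : R) (fun i => ((v i : cutS c hc) : R)))) := by
      rw [colF_eval]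
      intro x hx0 _ hxt
      obtain ⟨y, n, hy0, hyn, hy⟩ := hw x hx0 hxt
      exact ⟨y, hy0, hyn.trans (hω n), hy⟩
    obtain ⟨z, hz0, hz, hmin⟩ := hLNP R hR (colF φ) (push (t : R) (fun i => ((v i : cutS c hc) : R)))
      (push_nonneg ht' hv') ⟨ω, (hcn 0).trans (hω 0), hω'⟩
    have hzm : z ∈ cutS c hc := by
      by_contra hzm
      have hbig : ∀ n : ℕ, c ^ n < z := by
        intro n
        by_contra hle
        exact hzm ⟨n, by rw [abs_of_nonneg hz0]; exact not_lt.mp hle⟩
      have hz1 : 1 < z := by simpa using hbig 0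
      refine hmin (z - 1) (by linarith) (by linarith) ?_
      rw [colF_eval]
      intro x hx0 _ hxt
      obtain ⟨y, n, hy0, hyn, hy⟩ := hw x hx0 hxt
      refine ⟨y, hy0, ?_, hy⟩
      have h1 := hR.disc (z - c ^ n) (by linarith [hbig n])
      linarith
    rw [colF_eval] at hz
    have hzm1 : z + 1 ∈ cutS c hc := (cutS c hc).add_mem hzm (cutS c hc).one_mem
    refine ⟨⟨z + 1, hzm1⟩, Subtype.coe_le_coe.mp (by
      show ((0 : cutS c hc) : R) ≤ z + 1
      simp only [ZeroMemClass.coe_zero]
      linarith), ?_⟩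
    intro x hx0 hxt
    have hx0' : (0 : R) ≤ (x : R) := by
      have := Subtype.coe_le_coe.mpr hx0
      simpa using this
    have hxt' : (x : R) < t := Subtype.coe_lt_coe.mpr hxt
    obtain ⟨y, hy0, hyz, hy⟩ := hz x hx0' hxt'.le hxt'
    have hym : y ∈ cutS c hc := cutS_convex hzm hy0 hyz
    refine ⟨⟨y, hym⟩, Subtype.coe_le_coe.mp (by simpa using hy0), Subtype.coe_lt_coe.mp ?_, ?_⟩
    · show y < z + 1
      linarith
    · rw [eval_cut, push_coe, push_coe]
      exact hy
  · intro φ v
    exact eval_cut φ v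

end Pool.SBM.helper4
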